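import Pool.Agent.H914R2.KDefs2

/-!
# The number of independent algebraic classes of a given codimension
-/

open CategoryTheory AlgebraicGeometry

universe u v

namespace Pool.Agent.R911.Sq

open Pool.Agent.H914 VarClass Obj WeilCohomology

variable {k : Type u} [Field k] {𝒱 : VarClass k} {ops : CycleOps 𝒱}

/-- The dimension over the coefficient field `K` of the `K`-span in `H^(2p)(Y)` of the classes of
the cycles of codimension `p` on `Y`. -/
noncomputable def algRank (W : WeilCohomology.{u, v} ops) (Y : 𝒱.Obj) (p : ℕ) : ℕ :=
  Module.finrank W.K (spanCycles W Y p)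

end Pool.Agent.R911.Sq
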