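import Pool.Agent.H447R3.AoC
import Pool.Agent.R911.Sq.Defs

/-!
# The Lefschetz standard conjecture and the dimensions of the spaces of algebraic classes
-/

open CategoryTheory AlgebraicGeometry Finset

universe u v

namespace Pool.Agent.R911.Sq

open Pool.Agent.H914 Pool.Agent.H447 VarClass Obj WeilCohomology

section Ops

variable {K : Type*} [Field K] [CharZero K] {V : Type*} [AddCommGroup V] [Module K V]
variable {gr : ℕ → Submodule K V} {n : ℕ} {L : Module.End K V}
  {R : ℤ → Module.End K V → Prop}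

lemma dbl_two_mem (hR : OpAlg gr R) (hL : R 1 L) {x : Module.End K V} (hx : x ∈ KS R (-1)) :
    (dbl L ^ 2) x ∈ KS R 1 := by
  have hKS := hR.kspan
  have hLK : L ∈ KS R 1 := Submodule.subset_span hL
  rw [pow_two, Module.End.mul_apply, dbl_apply, dbl_apply]
  have h1 : L * x + x * L ∈ KS R 0 :=
    hKS.add (hKS.cast (hKS.mul hLK hx) (by ring)) (hKS.cast (hKS.mul hx hLK) (by ring))
  exact hKS.add (hKS.cast (hKS.mul hLK h1) (by ring)) (hKS.cast (hKS.mul h1 hLK) (by ring))

/-- The square of the Lefschetz operator between the spans in the degrees `-1` and `1`. -/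
noncomputable def sqMap (hR : OpAlg gr R) (hL : R 1 L) : KS R (-1) →ₗ[K] KS R 1 :=
  (dbl L ^ 2).restrict (fun _ hx => dbl_two_mem hR hL hx)

lemma sqMap_coe (hR : OpAlg gr R) (hL : R 1 L) (x : KS R (-1)) :
    (sqMap hR hL x : Module.End K V) = (dbl L ^ 2) (x : Module.End K V) := rfl

lemma sqMap_injective [Module.Finite K V] (hR : OpAlg gr R) (h : DirectSum.IsInternal gr)
    (hL : R 1 L) {f : Module.End K V} (t : Sl2 (wt h n) L f) :
    Function.Injective (sqMap hR hL) := by
  rw [← LinearMap.ker_eq_bot, LinearMap.ker_eq_bot']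
  intro x hx
  apply Subtype.ext
  have h1 := congrArg (fun y : KS R 1 => (y : Module.End K V)) hx
  simp only [sqMap_coe, Submodule.coe_zero] at h1
  refine dbl_inj h t ?_ h1
  have := hR.kspan.hom x.2
  simpa using this

/-- **Equality of the two dimensions.** -/
theorem lower_mem_of_finrank [Module.Finite K V] (hR : OpAlg gr R) (h : DirectSum.IsInternal gr)
    (hbd : ∀ i, 2 * n + 1 ≤ i → gr i = ⊥) (hL : R 1 L) (hHL : HardLef gr n L)
    {f : Module.End K V} (t : Sl2 (wt h n) L f) (hf : IsHom gr (-2) f)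
    (hdim : Module.finrank K (KS R 1) ≤ Module.finrank K (KS R (-1))) : f ∈ KS R (-1) := by
  have hinj := sqMap_injective hR h hL t
  have hle := LinearMap.finrank_le_finrank_of_injective hinj
  have hsurj : Function.Surjective (sqMap hR hL) :=
    (LinearMap.injective_iff_surjective_of_finrank_eq_finrank (le_antisymm hle hdim)).1 hinj
  refine lower_mem_of_surj hR.kspan h hbd (Submodule.subset_span hL) hHL t hf ?_
  intro y hy
  obtain ⟨x, hx⟩ := hsurj ⟨y, hy⟩
  refine ⟨x, x.2, ?_⟩
  rw [← sqMap_coe hR hL, hx]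

lemma finrank_le [Module.Finite K V] (hR : OpAlg gr R) (h : DirectSum.IsInternal gr)
    (hL : R 1 L) {f : Module.End K V} (t : Sl2 (wt h n) L f) :
    Module.finrank K (KS R (-1)) ≤ Module.finrank K (KS R 1) :=
  LinearMap.finrank_le_finrank_of_injective (sqMap_injective hR h hL t)

/-- The converse. -/
theorem finrank_eq_of_lower [Module.Finite K V] (hR : OpAlg gr R) (h : DirectSum.IsInternal gr)
    (hL : R 1 L) {f : Module.End K V} (t : Sl2 (wt h n) L f) (hf : f ∈ KS R (-1)) :
    Module.finrank K (KS R (-1)) = Module.finrank K (KS R 1) := by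
  have hKS := hR.kspan
  have hLK : L ∈ KS R 1 := Submodule.subset_span hL
  have hsurj : Function.Surjective (sqMap hR hL) := by
    intro y
    obtain ⟨z, hz, hzy⟩ := exists_preimage (sl2_dbl t) (P := fun d x => x ∈ KS R d) hKS.zero
      hKS.add (fun q _ _ hx => hKS.smul q hx)
      (fun {d x} hx => hKS.add (hKS.cast (hKS.mul hLK hx) (by ring)) (hKS.mul hx hLK))
      (fun {d x} hx => hKS.add (hKS.cast (hKS.mul hf hx) (by ring)) (hKS.mul hx hf))
      (fun {d x} hx => weight_dbl h (hKS.hom hx)) 1 (y := (y : Module.End K V)) y.2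
    refine ⟨⟨z, hz⟩, Subtype.ext ?_⟩
    rw [sqMap_coe]
    exact hzy
  exact (LinearEquiv.ofBijective (sqMap hR hL) ⟨sqMap_injective hR h hL t, hsurj⟩).finrank_eq

end Ops

variable {k : Type u} [Field k] {𝒱 : VarClass k} {ops : CycleOps 𝒱}
  {W : WeilCohomology.{u, v} ops} {X Y : 𝒱.Obj}

/-- The space of operators and the space of classes. -/
noncomputable def corrMap (W : WeilCohomology.{u, v} ops) (X : 𝒱.Obj) {p : ℕ} {d : ℤ}
    (hd : (p : ℤ) = X.dim + d) : spanCycles W (X.prod X) p →ₗ[W.K] KS (ROp W X) d where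
  toFun x := ⟨W.corr (x : W.H (X.prod X)), by
    rw [mem_KS_iff, mem_KOp_iff]
    exact ⟨x, by rw [← hd]; exact x.2, rfl⟩⟩
  map_add' x y := Subtype.ext (corr_add W _ _)
  map_smul' a x := Subtype.ext (corr_smul W _ _)

lemma corrMap_bijective {p : ℕ} {d : ℤ} (hd : (p : ℤ) = X.dim + d) :
    Function.Bijective (corrMap W X hd) := by
  constructor
  · intro x y hxy
    apply Subtype.ext
    rw [← sub_eq_zero]
    apply corr_inj
    rw [corr_sub', sub_eq_zero]
    exact congrArg (fun y : KS (ROp W X) d => (y : Module.End W.K (W.H X))) hxy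
  · rintro ⟨y, hy⟩
    have hy' := hy
    rw [mem_KS_iff, mem_KOp_iff] at hy'
    obtain ⟨γ, hγ, hγy⟩ := hy'
    exact ⟨⟨γ, by rw [hd]; exact hγ⟩, Subtype.ext hγy⟩

lemma algRank_eq {p : ℕ} {d : ℤ} (hd : (p : ℤ) = X.dim + d) :
    algRank W (X.prod X) p = Module.finrank W.K (KS (ROp W X) d) :=
  (LinearEquiv.ofBijective (corrMap W X hd) (corrMap_bijective hd)).finrank_eq

/-- **The Lefschetz standard conjecture and two dimensions.** -/
theorem rank_tfae (hn : 1 ≤ X.dim) {D : X.Cycles} (hD : X.IsCyc 1 D)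
    (hHL : HardLefschetz W X D) :
    algRank W (X.prod X) (X.dim - 1) ≤ algRank W (X.prod X) (X.dim + 1) ∧
    List.TFAE [LefschetzB W X D,
      algRank W (X.prod X) (X.dim - 1) = algRank W (X.prod X) (X.dim + 1),
      LefschetzAIn W (X.prod X) (boxSum ops D) (X.dim - 1), DiagDivisible W X D] := by
  have h := W.isInternal X
  have hLR := rop_mulLeft (W := W) hD
  have hLh : IsHom (W.gr X) 2 (LinearMap.mulLeft W.K (W.cl X D)) := by
    simpa using rop_opAlg.hom hLR
  have hOA := rop_opAlg (W := W) (X := X)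
  obtain ⟨f, t, hf, hfv⟩ := exists_sl2 h hLh W_hbd hHL
  have e1 : algRank W (X.prod X) (X.dim - 1) = Module.finrank W.K (KS (ROp W X) (-1)) :=
    algRank_eq (by omega)
  have e2 : algRank W (X.prod X) (X.dim + 1) = Module.finrank W.K (KS (ROp W X) 1) :=
    algRank_eq (by push_cast; ring)
  refine ⟨by rw [e1, e2]; exact finrank_le hOA h hLR t, ?_⟩
  tfae_have 1 → 2 := by
    intro hB
    obtain ⟨Φ, hΦ, hLam⟩ := lefschetzB_iff_rop.1 hB
    have hfR := lower_of_lam hOA h W_hbd hLR hHL hΦ hLam hfv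
    rw [e1, e2]
    exact finrank_eq_of_lower hOA h hLR t (Submodule.subset_span hfR)
  tfae_have 2 → 1 := by
    intro he
    rw [e1, e2] at he
    have hfR := lower_mem_of_finrank hOA h W_hbd hLR hHL t hf he.ge
    apply lefschetzB_of_inj hD hHL
    intro c _
    refine ⟨f ^ c, ?_, ?_⟩
    · rw [← mem_KS_iff]
      exact hOA.kspan.cast (hOA.kspan.pow hfR c) (by ring)
    · intro a ha h0
      apply f_pow_inj t _ h0
      rw [wt, scal_apply _ _ ha]
      congr 1
      rw [node]
      push_cast; ring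
  tfae_have 1 ↔ 3 := (a_tfae hD hHL).out 0 2
  tfae_have 1 ↔ 4 := (a_tfae hD hHL).out 0 3
  tfae_finish

end Pool.Agent.R911.Sq
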