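import Pool.Agent.R911.One.PTrace
import Pool.Agent.R911.Kn.Geo

/-!
# Algebraic functions of the degree
-/

open CategoryTheory AlgebraicGeometry Finset

universe u v

namespace Pool.Agent.R911.Sq

open Pool.Agent.H914 VarClass Obj WeilCohomology Pool.Agent.R911.One

variable {k : Type u} [Field k] {𝒱 : VarClass k} {ops : CycleOps 𝒱}
  {W : WeilCohomology.{u, v} ops} {X : 𝒱.Obj}

/-- The function `φ` of the degree is algebraic: the operator which acts on `H^i(X)` as `φ i` is a
`K`-linear combination of algebraic correspondences. -/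
def Al (W : WeilCohomology.{u, v} ops) (X : 𝒱.Obj) (φ : ℕ → W.K) : Prop :=
  scal (W.isInternal X) φ ∈ KOp W X X 0

lemma scal_congr {φ ψ : ℕ → W.K} (h : ∀ i, W.gr X i ≠ ⊥ → φ i = ψ i) :
    scal (W.isInternal X) φ = scal (W.isInternal X) ψ := by
  apply gr_ext (W.isInternal X)
  intro i a ha
  rw [scal_apply _ _ ha, scal_apply _ _ ha]
  by_cases hi : W.gr X i = ⊥
  · rw [hi, Submodule.mem_bot] at ha
    rw [ha, smul_zero, smul_zero]
  · rw [h i hi]

lemma Al.congr {φ ψ : ℕ → W.K} (hφ : Al W X φ) (h : ∀ i, W.gr X i ≠ ⊥ → φ i = ψ i) :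
    Al W X ψ := by
  rw [Al, ← scal_congr h]
  exact hφ

lemma Al.one : Al W X (fun _ => 1) := by
  rw [Al, scal_one]
  exact KOp.id X

lemma Al.add {φ ψ : ℕ → W.K} (hφ : Al W X φ) (hψ : Al W X ψ) : Al W X (fun i => φ i + ψ i) := by
  rw [Al, ← scal_add]
  exact Submodule.add_mem _ hφ hψ

lemma Al.mul {φ ψ : ℕ → W.K} (hφ : Al W X φ) (hψ : Al W X ψ) : Al W X (fun i => φ i * ψ i) := by
  rw [Al, ← scal_mul]
  exact KOp.cast (KOp.comp hφ hψ) (by ring)

lemma Al.smul {φ : ℕ → W.K} (c : W.K) (hφ : Al W X φ) : Al W X (fun i => c * φ i) := by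
  have h1 : scal (W.isInternal X) (fun i => c * φ i) = c • scal (W.isInternal X) φ := by
    apply gr_ext (W.isInternal X)
    intro i a ha
    rw [scal_apply _ _ ha, LinearMap.smul_apply, scal_apply _ _ ha, smul_smul]
  rw [Al, h1]
  exact Submodule.smul_mem _ _ hφ

lemma Al.const (c : W.K) : Al W X (fun _ => c) := by
  have := (Al.one (W := W) (X := X)).smul c
  simpa using this

/-- The transpose. -/
lemma Al.transp {φ : ℕ → W.K} (hφ : Al W X φ) : Al W X (fun i => φ (2 * X.dim - i)) := by
  obtain ⟨ψ, hψ, hadj⟩ := KOp.exists_adjoint hφ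
  have h1 : ψ = scal (W.isInternal X) (fun i => φ (2 * X.dim - i)) := by
    apply gr_ext (W.isInternal X)
    intro i b hb
    rw [scal_apply _ _ hb]
    by_cases hi : 2 * X.dim < i
    · rw [W.gr_eq_bot X i hi, Submodule.mem_bot] at hb
      rw [hb, map_zero, smul_zero]
    push Not at hi
    rw [← sub_eq_zero]
    apply nondeg_right
    intro a
    refine gr_induction (W.isInternal X)
      (p := fun a => W.tr X (a * (ψ b - φ (2 * X.dim - i) • b)) = 0) ?_ ?_ a
    · intro l a ha
      rw [mul_sub, map_sub, ← hadj, scal_apply _ _ ha, smul_mul_assoc, mul_smul_comm, map_smul,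
        map_smul]
      by_cases hl : l + i = 2 * X.dim
      · rw [show l = 2 * X.dim - i by omega, sub_self]
      · rw [W.tr_eq_zero (W.mul_mem ha hb) hl, smul_zero, smul_zero, sub_self]
    · intro a c ha hc
      rw [add_mul, map_add, ha, hc, add_zero]
  rw [Al, ← h1]
  exact KOp.cast hψ (by ring)

/-- The Betti numbers as scalars. -/
noncomputable def bK (W : WeilCohomology.{u, v} ops) (X : 𝒱.Obj) (i : ℕ) : W.K :=
  (Module.finrank W.K (W.gr X i) : W.K)

lemma trace_piece (ψ : ℕ → W.K) (m : ℕ) :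
    LinearMap.trace W.K (W.H X) ((proj (W.isInternal X) m * scal (W.isInternal X) ψ) *
      par (W.isInternal X)) = ψ m * (-1) ^ m * bK W X m := by
  rw [proj, par, scal_mul, scal_mul, trace_scal (W.isInternal X) W_hbd]
  by_cases hm : m < 2 * X.dim + 1
  · rw [Finset.sum_eq_single m]
    · rw [if_pos rfl, one_mul, bK]
    · intro i _ hi
      rw [if_neg hi, zero_mul, zero_mul, zero_mul]
    · intro h
      exact absurd (Finset.mem_range.2 hm) h
  · rw [Finset.sum_eq_zero, bK, W.gr_eq_bot X m (by omega), finrank_bot, Nat.cast_zero, mul_zero]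
    intro i hi
    rw [Finset.mem_range] at hi
    rw [if_neg (by omega), zero_mul, zero_mul, zero_mul]

/-- The function obtained from the component of degree `j` of the product and `φ`. -/
noncomputable def sh (W : WeilCohomology.{u, v} ops) (X : 𝒱.Obj) (j : ℕ) (φ : ℕ → W.K) (i : ℕ) :
    W.K :=
  if i ≤ j then φ (j - i) * (-1) ^ (j - i) * bK W X (j - i) else 0

/-- **The main step.** If the component of degree `j` of `X × X` is algebraic, then the algebraic
functions of the degree are stable under `sh j`. -/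
theorem Al.sh {j : ℕ} (he : proj (W.isInternal (X.prod X)) j ∈ KOp W (X.prod X) (X.prod X) 0)
    {φ : ℕ → W.K} (hφ : Al W X φ) : Al W X (sh W X j φ) := by
  have h1 : extOp W (1 : Module.End W.K (W.H X)) (scal (W.isInternal X) φ) ∈
      KOp W (X.prod X) (X.prod X) 0 := KOp.cast (KOp.ext (KOp.id X) hφ) (by ring)
  have h2 : proj (W.isInternal (X.prod X)) j * extOp W (1 : Module.End W.K (W.H X))
      (scal (W.isInternal X) φ) ∈ KOp W (X.prod X) (X.prod X) 0 :=
    KOp.cast (KOp.comp he h1) (by ring)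
  have h3 := ptr_mem (W := W) (X := X) (Z := X) (d := 0) (by omega) h2
  have h4 : ptr W X X (proj (W.isInternal (X.prod X)) j * extOp W (1 : Module.End W.K (W.H X))
      (scal (W.isInternal X) φ)) = scal (W.isInternal X) (Sq.sh W X j φ) := by
    apply gr_ext (W.isInternal X)
    intro i x hx
    rw [scal_apply _ _ hx, Sq.sh]
    by_cases hij : i ≤ j
    · rw [if_pos hij, ← trace_piece]
      apply ptr_apply_of
      intro a
      rw [Module.End.mul_apply, extOp_tmul, Module.End.one_apply]
      refine gr_induction (W.isInternal X) (p := fun a =>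
        proj (W.isInternal (X.prod X)) j (W.map (fst X X) x * W.map (snd X X)
          (scal (W.isInternal X) φ a)) = W.map (fst X X) x * W.map (snd X X)
          ((proj (W.isInternal X) (j - i) * scal (W.isInternal X) φ) a)) ?_ ?_ a
      · intro l a ha
        rw [Module.End.mul_apply, scal_apply _ _ ha, map_smul, map_smul, mul_smul_comm, map_smul,
          map_smul, mul_smul_comm]
        have hm : W.map (fst X X) x * W.map (snd X X) a ∈ W.gr (X.prod X) (i + l) :=
          W.mul_mem (W.map_mem _ hx) (W.map_mem _ ha)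
        by_cases hl : i + l = j
        · have hl' : l = j - i := by omega
          subst hl'
          rw [hl] at hm
          rw [proj_same _ hm, proj_same _ ha]
        · rw [proj_ne _ hm hl, proj_ne _ ha (by omega), map_zero, mul_zero]
      · intro a b ha hb
        rw [map_add, map_add, mul_add, map_add, ha, hb, map_add, map_add, mul_add]
    · rw [if_neg hij, zero_smul]
      have : ptr W X X (proj (W.isInternal (X.prod X)) j * extOp W (1 : Module.End W.K (W.H X))
          (scal (W.isInternal X) φ)) x = LinearMap.trace W.K (W.H X)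
            ((0 : Module.End W.K (W.H X)) * par (W.isInternal X)) • x := by
        apply ptr_apply_of
        intro a
        rw [Module.End.mul_apply, extOp_tmul, Module.End.one_apply, LinearMap.zero_apply, map_zero,
          mul_zero]
        refine gr_induction (W.isInternal X) (p := fun a =>
          proj (W.isInternal (X.prod X)) j (W.map (fst X X) x * W.map (snd X X)
            (scal (W.isInternal X) φ a)) = 0) ?_ ?_ a
        · intro l a ha
          rw [scal_apply _ _ ha, map_smul, mul_smul_comm, map_smul]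
          have hm : W.map (fst X X) x * W.map (snd X X) a ∈ W.gr (X.prod X) (i + l) :=
            W.mul_mem (W.map_mem _ hx) (W.map_mem _ ha)
          rw [proj_ne _ hm (by omega), smul_zero]
        · intro a b ha hb
          rw [map_add, map_add, mul_add, map_add, ha, hb, add_zero]
      rw [this, zero_mul, map_zero, zero_smul]
  rw [Al, ← h4]
  exact h3

/-- Separation of degrees gives projectors. -/
theorem Al.indicator {S : Set ℕ} [DecidablePred (· ∈ S)]
    (h : ∀ i ∈ S, ∀ o ∉ S, W.gr X i ≠ ⊥ → W.gr X o ≠ ⊥ → ∃ φ, Al W X φ ∧ φ i ≠ φ o) :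
    Al W X (fun i => if i ∈ S then 1 else 0) := by
  classical
  -- normalized functions
  have h1 : ∀ i ∈ S, ∀ o ∉ S, W.gr X i ≠ ⊥ → W.gr X o ≠ ⊥ →
      ∃ φ, Al W X φ ∧ φ i = 1 ∧ φ o = 0 := by
    intro i hi o ho hi' ho'
    obtain ⟨φ, hφ, hne⟩ := h i hi o ho hi' ho'
    have hd : φ i - φ o ≠ 0 := sub_ne_zero.2 hne
    refine ⟨fun m => (φ i - φ o)⁻¹ * (φ m + -φ o), (hφ.add (Al.const (-φ o))).smul _, ?_, ?_⟩
    · simp only [← sub_eq_add_neg, inv_mul_cancel₀ hd]
    · simp
  -- products over the complement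
  have h2 : ∀ i ∈ S, W.gr X i ≠ ⊥ → ∀ T : Finset ℕ, (∀ o ∈ T, o ∉ S ∧ W.gr X o ≠ ⊥) →
      ∃ φ, Al W X φ ∧ φ i = 1 ∧ ∀ o ∈ T, φ o = 0 := by
    intro i hi hi' T
    induction T using Finset.induction_on with
    | empty => intro _; exact ⟨fun _ => 1, Al.one, rfl, fun o ho => absurd ho (by simp)⟩
    | insert a T ha ih =>
      intro hT
      obtain ⟨φ, hφ, h3, h4⟩ := ih (fun o ho => hT o (Finset.mem_insert_of_mem ho))
      obtain ⟨ψ, hψ, h5, h6⟩ := h1 i hi a (hT a (Finset.mem_insert_self _ _)).1 hi'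
        (hT a (Finset.mem_insert_self _ _)).2
      refine ⟨fun m => φ m * ψ m, hφ.mul hψ, by simp only [h3, h5, one_mul], ?_⟩
      intro o ho
      rcases Finset.mem_insert.1 ho with rfl | ho
      · simp only [h6, mul_zero]
      · simp only [h4 o ho, zero_mul]
  let N : Finset ℕ := (Finset.range (2 * X.dim + 1)).filter (fun o => W.gr X o ≠ ⊥)
  have hN : ∀ o, W.gr X o ≠ ⊥ → o ∈ N := by
    intro o ho
    rw [Finset.mem_filter, Finset.mem_range]
    refine ⟨?_, ho⟩
    by_contra hc
    exact ho (W.gr_eq_bot X o (by omega))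
  -- unions over the set
  have h3 : ∀ T : Finset ℕ, (∀ i ∈ T, i ∈ S ∧ W.gr X i ≠ ⊥) →
      ∃ φ, Al W X φ ∧ (∀ i ∈ T, φ i = 1) ∧ ∀ o ∈ N, o ∉ S → φ o = 0 := by
    intro T
    induction T using Finset.induction_on with
    | empty => intro _; exact ⟨fun _ => 0, Al.const 0, fun o ho => absurd ho (by simp),
        fun _ _ _ => rfl⟩
    | insert a T ha ih =>
      intro hT
      obtain ⟨φ, hφ, h4, h5⟩ := ih (fun o ho => hT o (Finset.mem_insert_of_mem ho))
      obtain ⟨ψ, hψ, h6, h7⟩ := h2 a (hT a (Finset.mem_insert_self _ _)).1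
        (hT a (Finset.mem_insert_self _ _)).2 (N.filter (fun o => o ∉ S)) (by
          intro o ho
          rw [Finset.mem_filter, Finset.mem_filter] at ho
          exact ⟨ho.2, ho.1.2⟩)
      refine ⟨fun m => 1 + (-1) * ((1 + (-1) * φ m) * (1 + (-1) * ψ m)),
        (Al.const 1).add ((((Al.const 1).add (hφ.smul (-1))).mul
          ((Al.const 1).add (hψ.smul (-1)))).smul (-1)), ?_, ?_⟩
      · intro i hi
        rcases Finset.mem_insert.1 hi with rfl | hi
        · simp only [h6]; ring
        · simp only [h4 i hi]; ring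
      · intro o ho ho'
        simp only [h5 o ho ho', h7 o (Finset.mem_filter.2 ⟨ho, ho'⟩)]
        ring
  obtain ⟨φ, hφ, h4, h5⟩ := h3 (N.filter (fun i => i ∈ S)) (by
    intro i hi
    rw [Finset.mem_filter, Finset.mem_filter] at hi
    exact ⟨hi.2, hi.1.2⟩)
  refine hφ.congr ?_
  intro i hi
  by_cases hiS : i ∈ S
  · rw [if_pos hiS, h4 i (Finset.mem_filter.2 ⟨hN i hi, hiS⟩)]
  · rw [if_neg hiS, h5 i (hN i hi) hiS]

end Pool.Agent.R911.Sq
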