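import Pool.Agent.R911.Kn.Defs

/-!
# One Künneth component: definition
-/

open CategoryTheory AlgebraicGeometry

universe u v

namespace Pool.Agent.R911.Sq

open Pool.Agent.H914 VarClass Obj WeilCohomology Pool.Agent.R911.Kn

variable {k : Type u} [Field k] {𝒱 : VarClass k} {ops : CycleOps 𝒱}

/-- The Künneth component of degree `j` of the diagonal of `Y` is algebraic: the operator on `H(Y)`
which is the identity on `H^j(Y)` and zero on the other `H^m(Y)` is a `K`-linear combination of
operators given by algebraic cycles of codimension `dim Y` on `Y × Y`. -/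
def ComponentAlgebraic (W : WeilCohomology.{u, v} ops) (Y : 𝒱.Obj) (j : ℕ) : Prop :=
  ∃ P, IsAlgebraicOp W Y P ∧ IsDiagonal W Y (fun m => if m = j then 1 else 0) P

end Pool.Agent.R911.Sq
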