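import Pool.Agent.R911.Sq.Geo
import Pool.Agent.TH133.PW.Ev

/-!
# One Künneth component of `X × Y` and the sign conjecture
-/

open CategoryTheory AlgebraicGeometry Finset

universe u v

namespace Pool.Agent.R911.Sq

open Pool.Agent.H914 VarClass Obj WeilCohomology Pool.Agent.R911.Kn Pool.Agent.H447
  Pool.Agent.TH133.PW Pool.Agent.R911.One

variable {k : Type u} [Field k] {𝒱 : VarClass k} {ops : CycleOps 𝒱}
  {W : WeilCohomology.{u, v} ops} {X Y : 𝒱.Obj}

/-- The component of degree `j` of `X × Y` gives an algebraic function of the degree on `X`. -/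
theorem al_of_component {j : ℕ}
    (he : proj (W.isInternal (X.prod Y)) j ∈ KOp W (X.prod Y) (X.prod Y) 0) :
    Al W X (sh W Y j (fun _ => 1)) := by
  have h3 := ptr_mem (W := W) (X := X) (Z := Y) (d := 0) (by omega) he
  have h4 : ptr W X Y (proj (W.isInternal (X.prod Y)) j) =
      scal (W.isInternal X) (sh W Y j (fun _ => 1)) := by
    apply gr_ext (W.isInternal X)
    intro i x hx
    rw [scal_apply _ _ hx, sh]
    by_cases hij : i ≤ j
    · have h5 : LinearMap.trace W.K (W.H Y) (proj (W.isInternal Y) (j - i) *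
          par (W.isInternal Y)) = 1 * (-1) ^ (j - i) * bK W Y (j - i) := by
        have h6 := trace_piece (W := W) (X := Y) (fun _ => 1) (j - i)
        rwa [scal_one, mul_one] at h6
      rw [if_pos hij, ← h5]
      apply ptr_apply_of
      intro a
      refine gr_induction (W.isInternal Y) (p := fun a =>
        proj (W.isInternal (X.prod Y)) j (W.map (fst X Y) x * W.map (snd X Y) a) =
          W.map (fst X Y) x * W.map (snd X Y) (proj (W.isInternal Y) (j - i) a)) ?_ ?_ a
      · intro l a ha
        have hm : W.map (fst X Y) x * W.map (snd X Y) a ∈ W.gr (X.prod Y) (i + l) :=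
          W.mul_mem (W.map_mem _ hx) (W.map_mem _ ha)
        by_cases hl : i + l = j
        · have hl' : l = j - i := by omega
          subst hl'
          rw [hl] at hm
          rw [proj_same _ hm, proj_same _ ha]
        · rw [proj_ne _ hm hl, proj_ne _ ha (by omega), map_zero, mul_zero]
      · intro a b ha hb
        rw [map_add, mul_add, map_add, ha, hb, map_add, map_add, mul_add]
    · rw [if_neg hij, zero_smul]
      have : ptr W X Y (proj (W.isInternal (X.prod Y)) j) x = LinearMap.trace W.K (W.H Y)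
            ((0 : Module.End W.K (W.H Y)) * par (W.isInternal Y)) • x := by
        apply ptr_apply_of
        intro a
        rw [LinearMap.zero_apply, map_zero, mul_zero]
        refine gr_induction (W.isInternal Y) (p := fun a =>
          proj (W.isInternal (X.prod Y)) j (W.map (fst X Y) x * W.map (snd X Y) a) = 0) ?_ ?_ a
        · intro l a ha
          have hm : W.map (fst X Y) x * W.map (snd X Y) a ∈ W.gr (X.prod Y) (i + l) :=
            W.mul_mem (W.map_mem _ hx) (W.map_mem _ ha)
          rw [proj_ne _ hm (by omega)]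
        · intro a b ha hb
          rw [map_add, mul_add, map_add, ha, hb, add_zero]
      rw [this, zero_mul, map_zero, zero_smul]
  rw [Al, ← h4]
  exact h3

/-- Two degrees of different parity are separated. -/
lemma sepY {j m m' : ℕ}
    (he : proj (W.isInternal (X.prod Y)) j ∈ KOp W (X.prod Y) (X.prod Y) 0)
    (hpos : ∀ i, i ≤ Y.dim → W.gr Y (2 * i) ≠ ⊥) (hm : m ≤ 2 * X.dim) (hm' : m' ≤ 2 * X.dim)
    (hpm : m % 2 = j % 2) (hpm' : m' % 2 ≠ j % 2)
    (h : (m ≤ j ∧ j ≤ m + 2 * Y.dim) ∨ (2 * X.dim ≤ j + m ∧ j + m ≤ 2 * X.dim + 2 * Y.dim)) :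
    ∃ φ, Al W X φ ∧ φ m ≠ φ m' := by
  have key : ∀ m m' : ℕ, m ≤ 2 * X.dim → m' ≤ 2 * X.dim → m % 2 = j % 2 → m' % 2 ≠ j % 2 →
      m ≤ j → j ≤ m + 2 * Y.dim →
      sh W Y j (fun _ => 1) m ≠ sh W Y j (fun _ => 1) m' := by
    intro m m' hm hm' hpm hpm' h1 h2
    obtain ⟨t, ht⟩ : ∃ t, j - m = 2 * t := ⟨(j - m) / 2, by omega⟩
    have e1 : sh W Y j (fun _ => (1 : W.K)) m = bK W Y (j - m) := by
      rw [sh_one h1, ht, pow_mul]
      simp
    have e2 : W.gr Y (j - m) ≠ ⊥ := by
      rw [ht]
      exact hpos t (by omega)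
    rw [e1]
    by_cases h3 : m' ≤ j
    · obtain ⟨t', ht'⟩ : ∃ t', j - m' = 2 * t' + 1 := ⟨(j - m') / 2, by omega⟩
      have e3 : sh W Y j (fun _ => (1 : W.K)) m' = -bK W Y (j - m') := by
        rw [sh_one h3, ht', pow_succ, pow_mul]
        simp
      rw [e3]
      exact bK_ne_neg e2 _
    · rw [sh_gt _ (by omega)]
      exact bK_ne e2
  have hA : Al W X (sh W Y j (fun _ => 1)) := al_of_component he
  rcases h with h | h
  · exact ⟨_, hA, key m m' hm hm' hpm hpm' h.1 h.2⟩
  · refine ⟨_, hA.transp, ?_⟩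
    exact key (2 * X.dim - m) (2 * X.dim - m') (by omega) (by omega) (by omega) (by omega)
      (by omega) (by omega)

/-- **One component of `X × Y` implies the sign conjecture for `X`.** -/
theorem even_of_componentY {j : ℕ} (hpos : ∀ i, i ≤ Y.dim → W.gr Y (2 * i) ≠ ⊥)
    (h0 : X.dim ≤ Y.dim) (h1 : X.dim ≤ j) (h2 : j ≤ X.dim + 2 * Y.dim)
    (he : proj (W.isInternal (X.prod Y)) j ∈ KOp W (X.prod Y) (X.prod Y) 0) :
    Al W X (fun i => if i ∈ {i : ℕ | i % 2 = 0} then 1 else 0) := by
  classical
  have h3 := Al.indicator (W := W) (X := X) (S := {i : ℕ | i % 2 = 0}) (by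
    intro i hi o ho hi' ho'
    rw [Set.mem_ofPred_eq] at hi ho
    have hin : i ≤ 2 * X.dim := by
      by_contra hc
      exact hi' (W.gr_eq_bot X i (by omega))
    have hon : o ≤ 2 * X.dim := by
      by_contra hc
      exact ho' (W.gr_eq_bot X o (by omega))
    by_cases hj : j % 2 = 0
    · exact sepY he hpos hin hon (by omega) (by omega) (by omega)
    · obtain ⟨φ, hφ, hne⟩ := sepY he hpos hon hin (by omega) (by omega) (by omega)
      exact ⟨φ, hφ, hne.symm⟩)
  convert h3

lemma signStd_of_al (h : Al W X (fun i => if i ∈ {i : ℕ | i % 2 = 0} then 1 else 0)) :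
    SignStd W X := by
  apply ((sign_tfae W X).out 1 0).1
  refine ⟨scal (W.isInternal X) (fun i => if i ∈ {i : ℕ | i % 2 = 0} then 1 else 0), ?_, ?_⟩
  · have h1 : Submodule.span W.K (cycleOperators W X X.dim) = KOp W X X 0 := by
      unfold cycleOperators KOp
      congr 1
      ext y
      constructor
      · rintro ⟨z, hz, hy⟩
        exact ⟨X.dim, by ring, z, hz, hy⟩
      · rintro ⟨p, hp, z, hz, hy⟩
        have : p = X.dim := by omega
        subst this
        exact ⟨z, hz, hy⟩
    rw [h1]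
    exact h
  · intro j a ha
    rw [scal_apply _ _ ha]
    simp only [Set.mem_ofPred_eq, Nat.even_iff]
    split_ifs
    · rw [one_smul]
    · rw [zero_smul]

/-- **One component implies the sign conjecture.** -/
theorem sign_of_component {D : Y.Cycles} (hD : Y.IsCyc 1 D) (hne : W.cl Y D ^ Y.dim ≠ 0)
    (h0 : X.dim ≤ Y.dim) {j : ℕ} (h1 : X.dim ≤ j) (h2 : j ≤ X.dim + 2 * Y.dim)
    (h : ComponentAlgebraic W (X.prod Y) j) : SignStd W X :=
  signStd_of_al (even_of_componentY (pos_of_pow hD hne) h0 h1 h2 (component_iff_proj.1 h))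

end Pool.Agent.R911.Sq
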