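import Pool.Agent.R911.Sq.Main
import Pool.Agent.R911.Sq.CDefs

/-!
# One Künneth component of `X × X`: statements
-/

open CategoryTheory AlgebraicGeometry Finset

universe u v

namespace Pool.Agent.R911.Sq

open Pool.Agent.H914 VarClass Obj WeilCohomology Pool.Agent.R911.One Pool.Agent.R911.Kn

variable {k : Type u} [Field k] {𝒱 : VarClass k} {ops : CycleOps 𝒱}
  {W : WeilCohomology.{u, v} ops} {X Y Z : 𝒱.Obj}

lemma degreeZeroOps_eq_KOp : degreeZeroOps W X = KOp W X X 0 := by
  unfold degreeZeroOps spanOf KOp
  congr 1
  ext y
  constructor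
  · rintro ⟨z, hz, rfl⟩
    exact ⟨X.dim, by ring, z, hz, rfl⟩
  · rintro ⟨p, hp, z, hz, rfl⟩
    have : p = X.dim := by omega
    subst this
    exact ⟨z, hz, rfl⟩

lemma component_iff {j : ℕ} : ComponentAlgebraic W Y j ↔ Al W Y (fun m => if m = j then 1 else 0) := by
  unfold ComponentAlgebraic IsAlgebraicOp LiesIn
  rw [degreeZeroOps_eq_KOp]
  have e : scal (W.isInternal Y) (fun m => (((if m = j then 1 else 0 : ℚ)) : W.K)) =
      scal (W.isInternal Y) (fun m => if m = j then 1 else 0) := by
    congr 1
    funext m
    split_ifs <;> simp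
  constructor
  · rintro ⟨P, hP, hP'⟩
    rw [isDiagonal_iff] at hP'
    rw [Al, ← e, ← hP']
    exact hP
  · intro h
    refine ⟨_, h, ?_⟩
    rw [isDiagonal_iff]
    exact e.symm

lemma component_iff_proj {j : ℕ} : ComponentAlgebraic W Y j ↔
    proj (W.isInternal Y) j ∈ KOp W Y Y 0 := component_iff

lemma kunneth_iff_component : KunnethConjecture W Y ↔ ∀ j, ComponentAlgebraic W Y j := Iff.rfl

/-- The components of a product. -/
lemma proj_prod (m : ℕ) : proj (W.isInternal (Y.prod Z)) m =
    ∑ a ∈ range (m + 1), extOp W (proj (W.isInternal Y) a) (proj (W.isInternal Z) (m - a)) := by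
  apply ext_kunneth_lin
  intro y z
  refine gr_induction (W.isInternal Y) (p := fun y =>
    proj (W.isInternal (Y.prod Z)) m (W.map (fst Y Z) y * W.map (snd Y Z) z) =
      (∑ a ∈ range (m + 1), extOp W (proj (W.isInternal Y) a) (proj (W.isInternal Z) (m - a)))
        (W.map (fst Y Z) y * W.map (snd Y Z) z)) ?_ ?_ y
  · intro i y hy
    refine gr_induction (W.isInternal Z) (p := fun z =>
      proj (W.isInternal (Y.prod Z)) m (W.map (fst Y Z) y * W.map (snd Y Z) z) =
        (∑ a ∈ range (m + 1), extOp W (proj (W.isInternal Y) a) (proj (W.isInternal Z) (m - a)))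
          (W.map (fst Y Z) y * W.map (snd Y Z) z)) ?_ ?_ z
    · intro l z hz
      have hm : W.map (fst Y Z) y * W.map (snd Y Z) z ∈ W.gr (Y.prod Z) (i + l) :=
        W.mul_mem (W.map_mem _ hy) (W.map_mem _ hz)
      rw [LinearMap.sum_apply]
      by_cases hil : i + l = m
      · subst hil
        rw [proj_same _ hm, Finset.sum_eq_single i]
        · rw [extOp_tmul, proj_same _ hy, show i + l - i = l by omega, proj_same _ hz]
        · intro a _ ha
          rw [extOp_tmul, proj_ne _ hy (Ne.symm ha), map_zero, zero_mul]
        · intro h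
          exact absurd (Finset.mem_range.2 (by omega)) h
      · rw [proj_ne _ hm hil]
        symm
        apply Finset.sum_eq_zero
        intro a ha
        rw [Finset.mem_range] at ha
        rw [extOp_tmul]
        by_cases hai : i = a
        · subst hai
          rw [proj_ne _ hz (by omega), map_zero, mul_zero]
        · rw [proj_ne _ hy hai, map_zero, zero_mul]
    · intro a b ha hb
      rw [map_add, mul_add, map_add, map_add, ha, hb]
  · intro a b ha hb
    rw [map_add, add_mul, map_add, map_add, ha, hb]

lemma kunneth_prod (hY : KunnethConjecture W Y) (hZ : KunnethConjecture W Z) :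
    KunnethConjecture W (Y.prod Z) := by
  intro m
  apply component_iff_proj.2
  rw [proj_prod]
  apply Submodule.sum_mem
  intro a _
  exact KOp.cast (KOp.ext (component_iff_proj.1 (hY a)) (component_iff_proj.1 (hZ (m - a))))
    (by ring)

/-- Duality. -/
lemma component_dual {j j' : ℕ} (hj : j + j' = 2 * Y.dim) (h : ComponentAlgebraic W Y j) :
    ComponentAlgebraic W Y j' := by
  rw [component_iff] at h ⊢
  refine h.transp.congr ?_
  intro i hi
  have hin : i ≤ 2 * Y.dim := by
    by_contra hc
    exact hi (W.gr_eq_bot Y i (by omega))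
  by_cases h1 : i = j'
  · rw [if_pos h1, if_pos (by omega)]
  · rw [if_neg h1, if_neg (by omega)]

/-- **One component of `X × X` decides the Künneth conjecture.** -/
theorem square_tfae {D : X.Cycles} (hD : X.IsCyc 1 D) (hL : HardLefschetz W X D) :
    List.TFAE [KunnethConjecture W X, KunnethConjecture W (X.prod X),
      ComponentAlgebraic W (X.prod X) (2 * X.dim - 2),
      ComponentAlgebraic W (X.prod X) (2 * X.dim + 2)] := by
  tfae_have 1 → 2 := fun h => kunneth_prod h h
  tfae_have 2 → 3 := fun h => h _
  tfae_have 2 → 4 := fun h => h _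
  tfae_have 3 → 1 := by
    intro h i
    exact component_iff.2 (kunneth_of_component hL hD (component_iff_proj.1 h) i)
  tfae_have 4 → 1 := by
    intro h
    by_cases hn : X.dim = 0
    · intro i
      by_cases hi : i = 0
      · subst hi
        apply component_iff.2
        refine Al.one.congr ?_
        intro m hm
        have : m = 0 := by
          by_contra hc
          exact hm (W.gr_eq_bot X m (by omega))
        rw [if_pos this]
      · apply component_iff.2
        refine (Al.const 0).congr ?_
        intro m hm
        have : m = 0 := by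
          by_contra hc
          exact hm (W.gr_eq_bot X m (by omega))
        rw [if_neg (by omega)]
    · intro i
      have h1 : ComponentAlgebraic W (X.prod X) (2 * X.dim - 2) :=
        component_dual (by rw [dim_prod]; omega) h
      exact component_iff.2 (kunneth_of_component hL hD (component_iff_proj.1 h1) i)
  tfae_finish

end Pool.Agent.R911.Sq
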