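import Pool.Agent.R911.Sq.Al

/-!
# One Künneth component of `X × X`
-/

open CategoryTheory AlgebraicGeometry Finset

universe u v

namespace Pool.Agent.R911.Sq

open Pool.Agent.H914 VarClass Obj WeilCohomology Pool.Agent.R911.One Pool.Agent.R911.Kn
open Pool.Agent.H447

variable {k : Type u} [Field k] {𝒱 : VarClass k} {ops : CycleOps 𝒱}
  {W : WeilCohomology.{u, v} ops} {X Y : 𝒱.Obj}

lemma finrank_ne {i : ℕ} (h : W.gr X i ≠ ⊥) : Module.finrank W.K (W.gr X i) ≠ 0 := by
  intro h0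
  exact h (Submodule.finrank_eq_zero.1 h0)

lemma bK_ne {i : ℕ} (h : W.gr X i ≠ ⊥) : bK W X i ≠ 0 := by
  rw [bK]
  exact_mod_cast finrank_ne h

lemma bK_ne_neg {i : ℕ} (h : W.gr X i ≠ ⊥) (m : ℕ) : bK W X i ≠ -bK W X m := by
  intro h0
  rw [bK, bK, eq_neg_iff_add_eq_zero] at h0
  have h1 : ((Module.finrank W.K (W.gr X i) + Module.finrank W.K (W.gr X m) : ℕ) : W.K) = 0 := by
    push_cast
    exact h0
  have h2 := finrank_ne h
  rw [Nat.cast_eq_zero] at h1
  omega

/-- The function given by the component of degree `j`. -/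
lemma sh_one {j i : ℕ} (h : i ≤ j) : sh W X j (fun _ => 1) i = (-1) ^ (j - i) * bK W X (j - i) := by
  rw [sh, if_pos h, one_mul]

lemma sh_gt {j i : ℕ} (φ : ℕ → W.K) (h : j < i) : sh W X j φ i = 0 := by
  rw [sh, if_neg (by omega)]

/-- Two degrees of different parity are separated. -/
lemma sep_parity {j m m' : ℕ} (he : proj (W.isInternal (X.prod X)) j ∈ KOp W (X.prod X) (X.prod X) 0)
    (hpos : ∀ i, i ≤ X.dim → W.gr X (2 * i) ≠ ⊥) (hm : m ≤ 2 * X.dim) (hm' : m' ≤ 2 * X.dim)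
    (hpm : m % 2 = j % 2) (hpm' : m' % 2 ≠ j % 2)
    (h : (m ≤ j ∧ j ≤ m + 2 * X.dim) ∨ (2 * X.dim ≤ j + m ∧ j + m ≤ 4 * X.dim)) :
    ∃ φ, Al W X φ ∧ φ m ≠ φ m' := by
  have key : ∀ m m' : ℕ, m ≤ 2 * X.dim → m' ≤ 2 * X.dim → m % 2 = j % 2 → m' % 2 ≠ j % 2 →
      m ≤ j → j ≤ m + 2 * X.dim →
      sh W X j (fun _ => 1) m ≠ sh W X j (fun _ => 1) m' := by
    intro m m' hm hm' hpm hpm' h1 h2
    obtain ⟨t, ht⟩ : ∃ t, j - m = 2 * t := ⟨(j - m) / 2, by omega⟩
    have e1 : sh W X j (fun _ => (1 : W.K)) m = bK W X (j - m) := by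
      rw [sh_one h1, ht, pow_mul]
      simp
    have e2 : W.gr X (j - m) ≠ ⊥ := by
      rw [ht]
      exact hpos t (by omega)
    rw [e1]
    by_cases h3 : m' ≤ j
    · obtain ⟨t', ht'⟩ : ∃ t', j - m' = 2 * t' + 1 := ⟨(j - m') / 2, by omega⟩
      have e3 : sh W X j (fun _ => (1 : W.K)) m' = -bK W X (j - m') := by
        rw [sh_one h3, ht', pow_succ, pow_mul]
        simp
      rw [e3]
      exact bK_ne_neg e2 _
    · rw [sh_gt _ (by omega)]
      exact bK_ne e2
  have hA : Al W X (sh W X j (fun _ => 1)) := Al.sh he Al.one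
  rcases h with h | h
  · exact ⟨_, hA, key m m' hm hm' hpm hpm' h.1 h.2⟩
  · refine ⟨_, hA.transp, ?_⟩
    exact key (2 * X.dim - m) (2 * X.dim - m') (by omega) (by omega) (by omega) (by omega)
      (by omega) (by omega)

/-- **One component of `X × X` implies the sign conjecture for `X`.** -/
theorem even_of_component {j : ℕ} (hpos : ∀ i, i ≤ X.dim → W.gr X (2 * i) ≠ ⊥)
    (h1 : X.dim ≤ j) (h2 : j ≤ 3 * X.dim)
    (he : proj (W.isInternal (X.prod X)) j ∈ KOp W (X.prod X) (X.prod X) 0) :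
    Al W X (fun i => if i ∈ {i : ℕ | i % 2 = 0} then 1 else 0) := by
  classical
  have h3 := Al.indicator (W := W) (X := X) (S := {i : ℕ | i % 2 = 0}) (by
    intro i hi o ho hi' ho'
    rw [Set.mem_ofPred_eq] at hi ho
    have hin : i ≤ 2 * X.dim := by
      by_contra hc
      exact hi' (W.gr_eq_bot X i (by omega))
    have hon : o ≤ 2 * X.dim := by
      by_contra hc
      exact ho' (W.gr_eq_bot X o (by omega))
    by_cases hj : j % 2 = 0
    · exact sep_parity he hpos hin hon (by omega) (by omega) (by omega)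
    · obtain ⟨φ, hφ, hne⟩ := sep_parity he hpos hon hin (by omega) (by omega) (by omega)
      exact ⟨φ, hφ, hne.symm⟩)
  convert h3

/-- Powers of a divisor with nonzero top power. -/
lemma pos_of_pow {D : X.Cycles} (hD : X.IsCyc 1 D) (h : W.cl X D ^ X.dim ≠ 0) :
    ∀ i, i ≤ X.dim → W.gr X (2 * i) ≠ ⊥ := by
  intro i hi h0
  have h1 : W.cl X D ^ i ∈ W.gr X (2 * i) := by
    clear hi h0
    induction i with
    | zero => rw [pow_zero, mul_zero]; exact W.one_mem X
    | succ i ih =>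
      rw [pow_succ, show 2 * (i + 1) = 2 * i + 2 * 1 by ring]
      exact W.mul_mem ih (W.cl_mem hD)
  rw [h0, Submodule.mem_bot] at h1
  apply h
  rw [← Nat.sub_add_cancel hi, pow_add, h1, mul_zero]

section HL

variable {D : X.Cycles}

lemma mulLeft_pow_apply (a : W.H X) (m : ℕ) :
    ((LinearMap.mulLeft W.K (W.cl X D)) ^ m) a = W.cl X D ^ m * a := by
  induction m with
  | zero => simp
  | succ m ih => rw [pow_succ', Module.End.mul_apply, ih, LinearMap.mulLeft_apply, pow_succ',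
      mul_assoc]

lemma pow_ne (hL : HardLefschetz W X D) {x : ℕ} (hx : W.gr X x ≠ ⊥) :
    W.cl X D ^ X.dim ≠ 0 := by
  have h1 := (hL 0 (Nat.zero_le _)).1 1 (W.one_mem X)
  rw [mulLeft_pow_apply, mul_one, Nat.sub_zero] at h1
  intro h
  have h2 := h1 h
  obtain ⟨a, _, ha0⟩ := (Submodule.ne_bot_iff _).1 hx
  exact ha0 (by rw [← one_mul a, h2, zero_mul])

lemma mono_step (hL : HardLefschetz W X D) (hD : X.IsCyc 1 D) {x : ℕ} (hx : x < X.dim)
    (h : W.gr X x ≠ ⊥) : W.gr X (x + 2) ≠ ⊥ := by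
  intro h0
  obtain ⟨a, ha, ha0⟩ := (Submodule.ne_bot_iff _).1 h
  apply ha0
  apply (hL x hx.le).1 a ha
  have h1 : W.cl X D * a ∈ W.gr X (x + 2) := by
    have := W.mul_mem (W.cl_mem hD) ha
    rwa [show 2 * 1 + x = x + 2 by ring] at this
  rw [h0, Submodule.mem_bot] at h1
  rw [mulLeft_pow_apply, show X.dim - x = (X.dim - x - 1) + 1 by omega, pow_succ, mul_assoc, h1,
    mul_zero]

lemma mono_up (hL : HardLefschetz W X D) (hD : X.IsCyc 1 D) {y : ℕ} (h : W.gr X y ≠ ⊥) (t : ℕ)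
    (ht : t = 0 ∨ y + 2 * t < X.dim + 2) : W.gr X (y + 2 * t) ≠ ⊥ := by
  induction t with
  | zero => simpa using h
  | succ t ih =>
    have h1 := ih (by omega)
    have h2 := mono_step hL hD (x := y + 2 * t) (by omega) h1
    rwa [show y + 2 * (t + 1) = y + 2 * t + 2 by ring]

omit D in
lemma dual_ne {x : ℕ} (h : W.gr X x ≠ ⊥) : W.gr X (2 * X.dim - x) ≠ ⊥ := by
  intro h0
  obtain ⟨a, ha, ha0⟩ := (Submodule.ne_bot_iff _).1 h
  -- the pairing is perfect
  apply ha0
  apply W.nondeg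
  intro b
  refine gr_induction (W.isInternal X) (p := fun b => W.tr X (a * b) = 0) ?_ ?_ b
  · intro l b hb
    by_cases hl : x + l = 2 * X.dim
    · have hl' : l = 2 * X.dim - x := by omega
      subst hl'
      rw [h0, Submodule.mem_bot] at hb
      rw [hb, mul_zero, map_zero]
    · exact W.tr_eq_zero (W.mul_mem ha hb) hl
  · intro b c hb hc
    rw [mul_add, map_add, hb, hc, add_zero]

lemma interval (hL : HardLefschetz W X D) (hD : X.IsCyc 1 D) {x x' : ℕ} (hxx' : x < x')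
    (hpar : x % 2 = x' % 2) (h : W.gr X x ≠ ⊥) (h' : W.gr X x' ≠ ⊥) (hx' : x' ≤ 2 * X.dim) :
    W.gr X (x + 2) ≠ ⊥ := by
  by_cases hx : x < X.dim
  · exact mono_step hL hD hx h
  · have h1 := dual_ne h'
    obtain ⟨t, ht⟩ : ∃ t, 2 * X.dim - (x + 2) = 2 * X.dim - x' + 2 * t :=
      ⟨(x' - x - 2) / 2, by omega⟩
    have h2 := mono_up hL hD h1 t (by omega)
    rw [← ht] at h2
    have h3 := dual_ne h2
    rwa [show 2 * X.dim - (2 * X.dim - (x + 2)) = x + 2 by omega] at h3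

/-- Two degrees of the same parity are separated. -/
lemma sep_same (hL : HardLefschetz W X D) (hD : X.IsCyc 1 D)
    (he : proj (W.isInternal (X.prod X)) (2 * X.dim - 2) ∈ KOp W (X.prod X) (X.prod X) 0)
    (t : ℕ) : ∀ x x', x < x' → x % 2 = x' % 2 → W.gr X x ≠ ⊥ → W.gr X x' ≠ ⊥ →
      x' ≤ 2 * X.dim → 2 * X.dim ≤ x' + t → ∃ φ, Al W X φ ∧ φ x ≠ φ x' := by
  induction t using Nat.strong_induction_on with
  | _ t ih =>
  intro x x' hxx' hpar h h' hx' ht
  have h2 := interval hL hD hxx' hpar h h' hx'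
  have h3 := dual_ne h2
  have e1 : 2 * X.dim - (x + 2) = 2 * X.dim - 2 - x := by omega
  rw [e1] at h3
  have hA : Al W X (sh W X (2 * X.dim - 2) (fun _ => 1)) := Al.sh he Al.one
  by_cases hne : sh W X (2 * X.dim - 2) (fun _ => 1) x = sh W X (2 * X.dim - 2) (fun _ => 1) x'
  · -- equal Betti numbers: go on with the next degrees
    have hxj : x ≤ 2 * X.dim - 2 := by omega
    have hx'j : x' ≤ 2 * X.dim - 2 := by
      by_contra hc
      rw [sh_gt (i := x') _ (by omega), sh_one hxj] at hne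
      exact mul_ne_zero (pow_ne_zero _ (by norm_num)) (bK_ne h3) hne
    rw [sh_one hxj, sh_one hx'j] at hne
    have hpow : (-1 : W.K) ^ (2 * X.dim - 2 - x) = (-1 : W.K) ^ (2 * X.dim - 2 - x') := by
      obtain ⟨s, hs⟩ : ∃ s, 2 * X.dim - 2 - x = 2 * X.dim - 2 - x' + 2 * s :=
        ⟨(x' - x) / 2, by omega⟩
      rw [hs, pow_add, pow_mul]
      simp
    have hb : bK W X (2 * X.dim - 2 - x) = bK W X (2 * X.dim - 2 - x') := by
      rw [hpow] at hne
      exact mul_left_cancel₀ (pow_ne_zero _ (by norm_num)) hne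
    have h4 : W.gr X (2 * X.dim - 2 - x') ≠ ⊥ := by
      intro h0
      rw [bK, bK, h0, finrank_bot] at hb
      exact finrank_ne h3 (by exact_mod_cast hb)
    have h5 := dual_ne h4
    rw [show 2 * X.dim - (2 * X.dim - 2 - x') = x' + 2 by omega] at h5
    have hx'2 : x' + 2 ≤ 2 * X.dim := by omega
    obtain ⟨φ, hφ, hφne⟩ := ih (t - 2) (by omega) (x + 2) (x' + 2) (by omega) (by omega) h2 h5
      hx'2 (by omega)
    refine ⟨_, Al.sh he hφ.transp, ?_⟩
    simp only [sh]
    rw [if_pos hxj, if_pos hx'j, hpow, hb,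
      show 2 * X.dim - (2 * X.dim - 2 - x) = x + 2 by omega,
      show 2 * X.dim - (2 * X.dim - 2 - x') = x' + 2 by omega]
    intro h6
    apply hφne
    have h7 := bK_ne h4
    have h8 : ((-1 : W.K) ^ (2 * X.dim - 2 - x')) ≠ 0 := pow_ne_zero _ (by norm_num)
    have h9 := mul_right_cancel₀ h7 h6
    exact mul_right_cancel₀ h8 h9
  · exact ⟨_, hA, hne⟩

/-- **One component of `X × X` implies the Künneth conjecture for `X`.** -/
theorem kunneth_of_component (hL : HardLefschetz W X D) (hD : X.IsCyc 1 D)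
    (he : proj (W.isInternal (X.prod X)) (2 * X.dim - 2) ∈ KOp W (X.prod X) (X.prod X) 0)
    (i : ℕ) : Al W X (fun j => if j = i then 1 else 0) := by
  classical
  have hsep : ∀ x x', W.gr X x ≠ ⊥ → W.gr X x' ≠ ⊥ → x < x' → ∃ φ, Al W X φ ∧ φ x ≠ φ x' := by
    intro x x' h h' hlt
    have hpos := pos_of_pow hD (pow_ne hL h)
    have hx' : x' ≤ 2 * X.dim := by
      by_contra hc
      exact h' (W.gr_eq_bot X x' (by omega))
    by_cases hpar : x % 2 = x' % 2
    · exact sep_same hL hD he (2 * X.dim) x x' hlt hpar h h' hx' (by omega)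
    · by_cases hx : x % 2 = 0
      · exact sep_parity he hpos (by omega) hx' (by omega) (by omega) (by omega)
      · obtain ⟨φ, hφ, hne⟩ := sep_parity (m := x') (m' := x) he hpos hx' (by omega) (by omega)
          (by omega) (by omega)
        exact ⟨φ, hφ, hne.symm⟩
  have h3 := Al.indicator (W := W) (X := X) (S := {i}) (by
    intro a ha o ho ha' ho'
    rw [Set.mem_singleton_iff] at ha ho
    subst ha
    rcases lt_or_gt_of_ne ho with h | h
    · obtain ⟨φ, hφ, hne⟩ := hsep o a ho' ha' h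
      exact ⟨φ, hφ, hne.symm⟩
    · exact hsep a o ha' ho' h)
  refine h3.congr ?_
  intro a _
  simp only [Set.mem_singleton_iff]

end HL

end Pool.Agent.R911.Sq
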